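import Pool.Agent.W_d741c_h24.Star

/-! MP_d741cf_al, H4 half: the tubes `g z_t g⁻¹`, star moves and conjugation identities. -/

namespace FHC

open FH AG

/-- The generators. -/
abbrev sg (i : Fin 4) : Artin mH4 := PresentedGroup.of i

/-- The tube of type `t` at `g`. -/
def tb (t : Fin 9) (g : Artin mH4) : Artin mH4 := g * wd (zw t) * g⁻¹

theorem tb_conj {t u : Fin 9} {W : Artin mH4} (h : W * wd (zw t) = wd (zw u) * W)
    (g : Artin mH4) : tb t (g * W) = tb u g := by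
  have h' : W * wd (zw t) * W⁻¹ = wd (zw u) := by rw [h]; group
  calc tb t (g * W) = g * (W * wd (zw t) * W⁻¹) * g⁻¹ := by unfold tb; group
    _ = tb u g := by rw [h']; rfl

/-- The general identity: a positive word `w` with `w z_t = z_u w`. -/
theorem tb_word {t u : Fin 9} (w : List (Fin 4)) (n : ℕ)
    (h : rev CH n (w ++ zw t) (zw u ++ w) = some ([], [])) (g : Artin mH4) :
    tb t (g * wd w) = tb u g := by
  apply tb_conj
  have := wd_of_rev n h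
  rwa [wd_append, wd_append] at this

/-- Star move. -/
theorem tb_star {t : Fin 9} {i : Fin 4} (h : st t i = true) (g : Artin mH4) :
    tb t (g * sg i) = tb t g := by
  apply tb_conj
  exact (star_wd t i h).symm

theorem tb_star_inv {t : Fin 9} {i : Fin 4} (h : st t i = true) (g : Artin mH4) :
    tb t (g * (sg i)⁻¹) = tb t g := by
  have := tb_star h (g * (sg i)⁻¹)
  rw [inv_mul_cancel_right] at this
  exact this.symm

/-- Compatible tubes at the same element commute. -/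
theorem tb_comm {t u : Fin 9} (h : cp t u = true) (g : Artin mH4) :
    Commute (tb t g) (tb u g) := by
  have := comm_of_cp h
  unfold tb Commute SemiconjBy at *
  calc g * wd (zw t) * g⁻¹ * (g * wd (zw u) * g⁻¹)
      = g * (wd (zw t) * wd (zw u)) * g⁻¹ := by group
    _ = g * (wd (zw u) * wd (zw t)) * g⁻¹ := by rw [this]
    _ = g * wd (zw u) * g⁻¹ * (g * wd (zw t) * g⁻¹) := by group

/-- Conjugation of a tube. -/
theorem tb_mul (t : Fin 9) (k g : Artin mH4) : tb t (k * g) = k * tb t g * k⁻¹ := by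
  unfold tb; group

/-- `c@b = b@C`. -/
theorem id_A (g : Artin mH4) : tb 2 (g * sg 1) = tb 1 (g * (sg 2)⁻¹) := by
  have := tb_word (t := 2) (u := 1) [2, 1] 20 (by decide +kernel) (g * (sg 2)⁻¹)
  rw [← this]
  congr 1
  simp

/-- `c@B = b@c`. -/
theorem id_B (g : Artin mH4) : tb 2 (g * (sg 1)⁻¹) = tb 1 (g * sg 2) := by
  have := tb_word (t := 1) (u := 2) [1, 2] 20 (by decide +kernel) (g * (sg 1)⁻¹)
  rw [← this]
  congr 1
  simp

/-- `a@bab = b@A`. -/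
theorem id_E (g : Artin mH4) : tb 0 (g * sg 1 * sg 0 * sg 1) = tb 1 (g * (sg 0)⁻¹) := by
  have := tb_word (t := 0) (u := 1) [0, 1, 0, 1] 20 (by decide +kernel) (g * (sg 0)⁻¹)
  rw [← this]
  congr 1
  simp [mul_assoc]

/-- `b@bab = a@AB`. -/
theorem id_F (g : Artin mH4) :
    tb 1 (g * sg 1 * sg 0 * sg 1) = tb 0 (g * (sg 0)⁻¹ * (sg 1)⁻¹) := by
  have := tb_word (t := 1) (u := 0) [1, 0, 1, 0, 1] 20 (by decide +kernel)
    (g * (sg 0)⁻¹ * (sg 1)⁻¹)
  rw [← this]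
  congr 1
  simp [mul_assoc]

/-- `a@bCB = a@CB`. -/
theorem id_H (g : Artin mH4) :
    tb 0 (g * sg 1 * (sg 2)⁻¹ * (sg 1)⁻¹) = tb 0 (g * (sg 2)⁻¹ * (sg 1)⁻¹) := by
  have h1 : sg 1 * sg 2 * sg 1 = sg 2 * sg 1 * sg 2 := by
    have := wd_of_rev (u := [1, 2, 1]) (v := [2, 1, 2]) 20 (by decide +kernel)
    simpa [mul_assoc] using this
  have h3 : sg 1 * sg 2 * (sg 1)⁻¹ = (sg 2)⁻¹ * sg 1 * sg 2 := by
    calc sg 1 * sg 2 * (sg 1)⁻¹ = (sg 2)⁻¹ * (sg 2 * sg 1 * sg 2) * (sg 1)⁻¹ := by group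
      _ = (sg 2)⁻¹ * (sg 1 * sg 2 * sg 1) * (sg 1)⁻¹ := by rw [h1]
      _ = (sg 2)⁻¹ * sg 1 * sg 2 := by group
  have h2 : sg 1 * (sg 2)⁻¹ * (sg 1)⁻¹ = (sg 2)⁻¹ * (sg 1)⁻¹ * sg 2 := by
    have := congrArg (fun x => x⁻¹) h3
    simpa [mul_assoc] using this
  have e : g * sg 1 * (sg 2)⁻¹ * (sg 1)⁻¹ = g * (sg 2)⁻¹ * (sg 1)⁻¹ * sg 2 := by
    calc g * sg 1 * (sg 2)⁻¹ * (sg 1)⁻¹ = g * (sg 1 * (sg 2)⁻¹ * (sg 1)⁻¹) := by group
      _ = g * ((sg 2)⁻¹ * (sg 1)⁻¹ * sg 2) := by rw [h2]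
      _ = g * (sg 2)⁻¹ * (sg 1)⁻¹ * sg 2 := by group
  rw [e]
  exact tb_star (by decide) _

/-- `b = a@abab`. -/
theorem id_K (g : Artin mH4) : tb 0 (g * sg 0 * sg 1 * sg 0 * sg 1) = tb 1 g := by
  have := tb_word (t := 0) (u := 1) [0, 1, 0, 1] 20 (by decide +kernel) g
  rw [← this]
  congr 1
  simp [mul_assoc]

/-- `c = b@bc`. -/
theorem id_L (g : Artin mH4) : tb 1 (g * sg 1 * sg 2) = tb 2 g := by
  have := tb_word (t := 1) (u := 2) [1, 2] 20 (by decide +kernel) g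
  rw [← this]
  congr 1
  simp [mul_assoc]

/-- `d = c@cd`. -/
theorem id_M (g : Artin mH4) : tb 2 (g * sg 2 * sg 3) = tb 3 g := by
  have := tb_word (t := 2) (u := 3) [2, 3] 20 (by decide +kernel) g
  rw [← this]
  congr 1
  simp [mul_assoc]

/-- `34 = 23@(s2 s3 s4)`. -/
theorem id_N (g : Artin mH4) : tb 5 (g * sg 1 * sg 2 * sg 3) = tb 6 g := by
  have := tb_word (t := 5) (u := 6) [1, 2, 3] 40 (by decide +kernel) g
  rw [← this]
  congr 1
  simp [mul_assoc]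

end FHC
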