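import Pool.Agent.W_d741c_h24.Words

/-! MP_d741cf_al, H4 half: commutation of the nine tubes, centre, by word reversing. -/

namespace FHC

open FH AG

/-- The words of the nine tubes. -/
def zw : Fin 9 → List (Fin 4) :=
  ![[0], [1], [2], [3], rp 5 [0, 1], rp 3 [1, 2], rp 3 [2, 3], rp 10 [0, 1, 2], rp 4 [1, 2, 3]]

/-- The stars: `st t i` iff `i` lies in the tube `t` or is far from it. -/
def st : Fin 9 → Fin 4 → Bool :=
  ![![true, false, true, true], ![false, true, false, true], ![true, false, true, false],
    ![true, true, false, true], ![true, true, false, true], ![false, true, true, false],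
    ![true, false, true, true], ![true, true, true, false], ![false, true, true, true]]

set_option maxRecDepth 100000 in
theorem star_rev : ∀ (t : Fin 9) (i : Fin 4), st t i = true →
    rev CH 100 (zw t ++ [i]) ([i] ++ zw t) = some ([], []) := by
  decide +kernel

theorem star_wd (t : Fin 9) (i : Fin 4) (h : st t i = true) :
    wd (zw t) * PresentedGroup.of i = PresentedGroup.of i * wd (zw t) := by
  have := wd_of_rev 100 (star_rev t i h)
  rw [wd_append, wd_append] at this
  simpa using this

set_option maxRecDepth 100000 in
theorem cen_rev : ∀ i : Fin 4,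
    rev CH 100 (rp 15 [0, 1, 2, 3] ++ [i]) ([i] ++ rp 15 [0, 1, 2, 3]) = some ([], []) := by
  decide +kernel

theorem cen_wd (i : Fin 4) :
    Commute (wd (rp 15 [0, 1, 2, 3])) (PresentedGroup.of i : Artin mH4) := by
  have := wd_of_rev 100 (cen_rev i)
  rw [wd_append, wd_append] at this
  simpa [Commute, SemiconjBy] using this

/-- An element commuting with the four generators is central. -/
theorem central_of {x : Artin mH4} (h : ∀ i : Fin 4, Commute x (PresentedGroup.of i)) (y : Artin mH4) :
    Commute x y := by
  have hy : y ∈ Subgroup.closure (Set.range (PresentedGroup.of : Fin 4 → Artin mH4)) := by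
    rw [PresentedGroup.closure_range_of]
    trivial
  induction hy using Subgroup.closure_induction with
  | mem y hy =>
    obtain ⟨i, rfl⟩ := hy
    exact h i
  | one => exact Commute.one_right _
  | mul a b _ _ ha hb => exact ha.mul_right hb
  | inv a _ ha => exact ha.inv_right

theorem wd_comm_of {x : Artin mH4} {w : List (Fin 4)}
    (h : ∀ i ∈ w, Commute x (PresentedGroup.of i)) : Commute x (wd w) := by
  induction w with
  | nil => simp
  | cons i w ih =>
    rw [wd_cons]
    exact (h i (by simp)).mul_right (ih (fun j hj => h j (by simp [hj])))

/-- Compatible tubes. -/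
def cp (t u : Fin 9) : Bool := (zw u).all (fun i => st t i) || (zw t).all (fun i => st u i)

theorem comm_of_cp {t u : Fin 9} (h : cp t u = true) : Commute (wd (zw t)) (wd (zw u)) := by
  have key : ∀ t u : Fin 9, (zw u).all (fun i => st t i) = true →
      Commute (wd (zw t)) (wd (zw u)) := by
    intro t u h
    apply wd_comm_of
    intro i hi
    have := List.all_eq_true.1 h i hi
    exact star_wd t i this
  rw [cp, Bool.or_eq_true] at h
  rcases h with h | h
  · exact key t u h
  · exact (key u t h).symm

end FHC
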