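import Pool.Agent.W_d741g_h37.Rev
import Pool.Agent.W_d741_h93.Defs

/-! MP_d741cf_al, H4 half: word identities in the Artin group of type H4, checked by word
reversing. -/

namespace FHC

open FH AG

/-- The complements in the Artin monoid of type `H4` (`m = 5, 3, 3`). -/
def CH : Fin 4 → Fin 4 → List (Fin 4)
  | 0, 1 => [1, 0, 1, 0]
  | 1, 0 => [0, 1, 0, 1]
  | 1, 2 => [2, 1]
  | 2, 1 => [1, 2]
  | 2, 3 => [3, 2]
  | 3, 2 => [2, 3]
  | _, t => [t]

/-- The value of a positive word in the Artin group of type `H4`. -/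
def wd (w : List (Fin 4)) : Artin mH4 := (w.map (fun i => (PresentedGroup.of i : Artin mH4))).prod

@[simp] theorem wd_nil : wd [] = 1 := rfl

@[simp] theorem wd_cons (i : Fin 4) (w : List (Fin 4)) :
    wd (i :: w) = PresentedGroup.of i * wd w := by
  simp [wd]

theorem wd_append (u v : List (Fin 4)) : wd (u ++ v) = wd u * wd v := by
  simp [wd]

theorem alt_map {M N : Type*} [Monoid M] [Monoid N] (f : M →* N) (a b : M) (n : ℕ) :
    f (alt a b n) = alt (f a) (f b) n := by
  induction n generalizing a b with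
  | zero => simp [alt]
  | succ n ih => simp [alt, ih]

theorem rel (i j : Fin 4) (h : i ≠ j) :
    alt (PresentedGroup.of i : Artin mH4) (PresentedGroup.of j) (mH4 i j) =
      alt (PresentedGroup.of j) (PresentedGroup.of i) (mH4 i j) := by
  have h1 : (PresentedGroup.mk (artinRels mH4)) (alt (FreeGroup.of i) (FreeGroup.of j) (mH4 i j) *
      (alt (FreeGroup.of j) (FreeGroup.of i) (mH4 i j))⁻¹) = 1 := by
    apply PresentedGroup.one_of_mem
    exact ⟨i, j, h, rfl⟩
  rw [map_mul, map_inv, mul_inv_eq_one, alt_map, alt_map] at h1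
  exact h1

theorem relk (i j : Fin 4) (h : i ≠ j) (k : ℕ) (hk : mH4 i j = k) :
    alt (PresentedGroup.of i : Artin mH4) (PresentedGroup.of j) k =
      alt (PresentedGroup.of j) (PresentedGroup.of i) k := hk ▸ rel i j h

theorem wd_swap : ∀ s t : Fin 4, s ≠ t → wd (s :: CH s t) = wd (t :: CH t s)
  | 0, 0, h => absurd rfl h
  | 0, 1, _ => by simpa [alt, CH] using relk 0 1 (by decide) 5 rfl
  | 0, 2, _ => by simpa [alt, CH] using relk 0 2 (by decide) 2 rfl
  | 0, 3, _ => by simpa [alt, CH] using relk 0 3 (by decide) 2 rfl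
  | 1, 0, _ => by simpa [alt, CH] using relk 1 0 (by decide) 5 rfl
  | 1, 1, h => absurd rfl h
  | 1, 2, _ => by simpa [alt, CH] using relk 1 2 (by decide) 3 rfl
  | 1, 3, _ => by simpa [alt, CH] using relk 1 3 (by decide) 2 rfl
  | 2, 0, _ => by simpa [alt, CH] using relk 2 0 (by decide) 2 rfl
  | 2, 1, _ => by simpa [alt, CH] using relk 2 1 (by decide) 3 rfl
  | 2, 2, h => absurd rfl h
  | 2, 3, _ => by simpa [alt, CH] using relk 2 3 (by decide) 3 rfl
  | 3, 0, _ => by simpa [alt, CH] using relk 3 0 (by decide) 2 rfl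
  | 3, 1, _ => by simpa [alt, CH] using relk 3 1 (by decide) 2 rfl
  | 3, 2, _ => by simpa [alt, CH] using relk 3 2 (by decide) 3 rfl
  | 3, 3, h => absurd rfl h

theorem wd_of_br {u v : List (Fin 4)} (h : Br CH u v) : wd u = wd v := by
  induction h with
  | nil => rfl
  | cons s _ ih => simp [ih]
  | swap h w =>
    rename_i s t
    have h1 := wd_swap s t h
    have e1 : s :: (CH s t ++ w) = (s :: CH s t) ++ w := rfl
    have e2 : t :: (CH t s ++ w) = (t :: CH t s) ++ w := rfl
    rw [e1, e2, wd_append, wd_append, h1]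
  | trans _ _ ih ih' => exact ih.trans ih'

theorem wd_of_rev {u v : List (Fin 4)} (n : ℕ) (h : rev CH n u v = some ([], [])) :
    wd u = wd v := by
  have := rev_sound _ _ _ _ _ h
  exact wd_of_br (by simpa using this)

/-- Repeat a word. -/
def rp (n : ℕ) (w : List (Fin 4)) : List (Fin 4) := (List.replicate n w).flatten

theorem wd_rp (n : ℕ) (w : List (Fin 4)) : wd (rp n w) = wd w ^ n := by
  induction n with
  | zero => simp [rp]
  | succ n ih =>
    have : rp (n + 1) w = w ++ rp n w := by simp [rp, List.replicate_succ]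
    rw [this, wd_append, ih, pow_succ']

end FHC
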